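import Pool.Agent.H476.HF

open Complex Filter Topology Set MeasureTheory

namespace Pool.Agent.Results.MP_155064_nt.SharpConstants

open Pool.Agent.H476 Pool.Agent.H476.Sn

lemma uniq_const (hRH : RiemannHypothesis) {S : ℝ → ℝ} (hS : IsS S) {c : ℕ → ℝ}
    (hc : ∀ n : ℕ, 1 ≤ n → Tendsto (fun T : ℝ => (1 / T) * ∫ t in (0 : ℝ)..T, SNc c S n t)
      atTop (𝓝 0)) (n : ℕ) :
    SNc c S n = SNc delta S n ∧ (1 ≤ n → c n = delta n) := by
  induction n with
  | zero => exact ⟨rfl, fun h => absurd h (by norm_num)⟩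
  | succ n ih =>
    obtain ⟨ih1, -⟩ := ih
    have hfun : ∀ t, SNc c S (n + 1) t = SNc delta S (n + 1) t + (c (n + 1) - delta (n + 1)) := by
      intro t
      show (∫ τ in (0 : ℝ)..t, SNc c S n τ) + c (n + 1) =
        ((∫ τ in (0 : ℝ)..t, SNc delta S n τ) + delta (n + 1)) + _
      rw [ih1]
      ring
    have hint : ∀ T : ℝ, 0 < T → IntervalIntegrable (SNc delta S (n + 1)) volume 0 T := by
      intro T hT
      obtain ⟨-, h2, -⟩ := Fn_vert hRH (n + 1) hT
      have h3 : IntervalIntegrable (fun τ : ℝ => (I ^ (n + 1) * Fn (n + 1) (1 / 2 + τ * I)).im)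
          volume 0 T := by
        have h4 := h2.const_mul (I ^ (n + 1))
        rw [intervalIntegrable_iff] at h4 ⊢
        exact h4.im
      have h5 : IntervalIntegrable (Hn (n + 1)) volume 0 T := h3.const_mul (1 / Real.pi)
      rw [intervalIntegrable_iff, uIoc_of_le hT.le] at h5 ⊢
      refine h5.congr ?_
      filter_upwards [ae_restrict_mem measurableSet_Ioc] with τ hτ
      exact (SN_eq hRH hS n τ hτ.1).symm
    have hlim : Tendsto (fun T : ℝ => (1 / T) * ∫ t in (0 : ℝ)..T, SNc c S (n + 1) t)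
        atTop (𝓝 (0 + (c (n + 1) - delta (n + 1)))) := by
      have h1 := (mean_zero hRH hS (n := n + 1) (by omega)).add_const (c (n + 1) - delta (n + 1))
      refine h1.congr' ?_
      filter_upwards [eventually_gt_atTop (0 : ℝ)] with T hT
      have h2 : ∫ t in (0 : ℝ)..T, SNc c S (n + 1) t =
          (∫ t in (0 : ℝ)..T, SNc delta S (n + 1) t) + (c (n + 1) - delta (n + 1)) * T := by
        simp_rw [hfun]
        rw [intervalIntegral.integral_add (hint T hT) (by simp), intervalIntegral.integral_const,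
          smul_eq_mul, sub_zero]
        ring
      rw [h2]
      show 1 / T * (∫ t in (0 : ℝ)..T, SNc delta S (n + 1) t) + _ = _
      field_simp
    have heq := tendsto_nhds_unique (hc (n + 1) (by omega)) hlim
    have hcn : c (n + 1) = delta (n + 1) := by linarith
    refine ⟨?_, fun _ => hcn⟩
    funext t
    rw [hfun t, hcn]
    ring

/-- Under the Riemann hypothesis: the argument function is well defined; the constants `delta n`
are the only ones giving every `S_n` mean value zero; and for every `n ≥ 2` (in particular for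
every even `n ≥ 2`) the antiderivative `S_n` satisfies the two-sided bound with the constants
`A_n^-`, `A_n^+` coming from the extreme values of the Bernoulli polynomial `B_{n+1}`. -/
theorem result (hRH : RiemannHypothesis) :
    (∀ t : ℝ, 0 < t → riemannZeta (1 / 2 + t * I) ≠ 0 → ∃! θ : ℝ, IsArg t θ) ∧
    ∀ S : ℝ → ℝ, IsS S →
      (∀ n : ℕ, 1 ≤ n →
        Tendsto (fun T : ℝ => (1 / T) * ∫ t in (0 : ℝ)..T, SNc delta S n t) atTop (𝓝 0)) ∧
      (∀ c : ℕ → ℝ, (∀ n : ℕ, 1 ≤ n →
        Tendsto (fun T : ℝ => (1 / T) * ∫ t in (0 : ℝ)..T, SNc c S n t) atTop (𝓝 0)) →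
          ∀ n : ℕ, 1 ≤ n → c n = delta n) ∧
      ∀ n : ℕ, 2 ≤ n → ∀ ε : ℝ, 0 < ε → ∀ᶠ t : ℝ in atTop,
        -((Aminus n + ε) * LamN n t) ≤ SNc delta S n t ∧
          SNc delta S n t ≤ (Aplus n + ε) * LamN n t := by
  refine ⟨fun t ht hz => ⟨_, isArg_exists hRH ht hz, fun θ hθ =>
    isArg_unique hRH ht hz hθ (isArg_exists hRH ht hz)⟩, fun S hS => ⟨fun n hn =>
      mean_zero hRH hS hn, fun c hc n hn => (uniq_const hRH hS hc n).2 hn, ?_⟩⟩
  intro n hn ε hε
  obtain ⟨m, rfl⟩ : ∃ m, n = m + 1 := ⟨n - 1, by omega⟩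
  filter_upwards [Hn_upper hRH hn hε, Hn_lower hRH hn hε, eventually_gt_atTop (0 : ℝ)]
    with t h1 h2 h3
  have h4 : SNc delta S (m + 1) t = Hn (m + 1) t := SN_eq hRH hS m t h3
  rw [h4]
  exact ⟨h2, h1⟩

end Pool.Agent.Results.MP_155064_nt.SharpConstants
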